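import Pool.Agent.W761.Box.Dz

/-!
# Closure of the class of good functions for box averages
-/

set_option autoImplicit false
set_option linter.unusedSectionVars false

open Filter Topology MeasureTheory

noncomputable section

namespace Pool.Agent.W761.Box

/-- Complex box averages. -/
def bxc (k : ℕ) (N : Fin k → ℕ) (a : (Fin k → ℕ) → ℂ) : ℂ :=
  (∏ j, (N j : ℂ))⁻¹ * ∑ m ∈ Fintype.piFinset (fun j => Finset.range (N j)), a m

theorem bxc_norm (k : ℕ) (N : Fin k → ℕ) (a : (Fin k → ℕ) → ℂ) :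
    ‖bxc k N a‖ ≤ bx k N (fun m => ‖a m‖) := by
  rw [bxc, bx, norm_mul, norm_inv, norm_prod]
  simp only [Complex.norm_natCast]
  exact mul_le_mul_of_nonneg_left (norm_sum_le _ _) (by positivity)

theorem bxc_bound {k : ℕ} {N : Fin k → ℕ} {a : (Fin k → ℕ) → ℂ} {C : ℝ} (hC : 0 ≤ C)
    (h : ∀ m, ‖a m‖ ≤ C) : ‖bxc k N a‖ ≤ C :=
  ((bxc_norm k N a).trans (bx_mono h)).trans (bx_const_le hC)

theorem bxc_add (k : ℕ) (N : Fin k → ℕ) (a b : (Fin k → ℕ) → ℂ) :
    bxc k N (fun m => a m + b m) = bxc k N a + bxc k N b := by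
  rw [bxc, bxc, bxc, Finset.sum_add_distrib, mul_add]

theorem bxc_sub (k : ℕ) (N : Fin k → ℕ) (a b : (Fin k → ℕ) → ℂ) :
    bxc k N (fun m => a m - b m) = bxc k N a - bxc k N b := by
  rw [bxc, bxc, bxc, Finset.sum_sub_distrib, mul_sub]

theorem bxc_mul (k : ℕ) (N : Fin k → ℕ) (c : ℂ) (a : (Fin k → ℕ) → ℂ) :
    bxc k N (fun m => c * a m) = c * bxc k N a := by
  rw [bxc, bxc, ← Finset.mul_sum]
  ring

/-- Convergence for complex functions from real functions. -/
theorem bxc_of_bx {k : ℕ} {a : (Fin k → ℕ) → ℂ}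
    (h1 : ∃ L : ℝ, Tendsto (fun N => bx k N (fun m => (a m).re)) atTop (𝓝 L))
    (h2 : ∃ L : ℝ, Tendsto (fun N => bx k N (fun m => (a m).im)) atTop (𝓝 L)) :
    ∃ L : ℂ, Tendsto (fun N => bxc k N a) atTop (𝓝 L) := by
  obtain ⟨L, hL⟩ := h1
  obtain ⟨L', hL'⟩ := h2
  refine ⟨_, Tendsto.congr (fun N => ?_) (((Complex.continuous_ofReal.tendsto _).comp hL).add
      (((Complex.continuous_ofReal.tendsto _).comp hL').mul_const Complex.I))⟩
  simp only [Function.comp_apply, bx, bxc]
  push_cast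
  rw [mul_assoc, ← mul_add, Finset.sum_mul, ← Finset.sum_add_distrib]
  congr 1
  apply Finset.sum_congr rfl
  intro n _
  exact Complex.re_add_im _

section general

variable {X : Type*} [MeasurableSpace X] {J : Type*} [Fintype J] [DecidableEq J]
variable {k : ℕ}

/-- Bounded measurable functions. -/
def BM (f : X → ℂ) : Prop := Measurable f ∧ ∃ C : ℝ, ∀ x, ‖f x‖ ≤ C

/-- Convergence almost everywhere of the multiple box averages along `g`. -/
def Cv (μ : Measure X) (g : J → (Fin k → ℕ) → X → X) (F : J → X → ℂ) : Prop :=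
  ∀ᵐ x ∂μ, ∃ L, Tendsto (fun N => bxc k N fun m => ∏ j, F j (g j m x)) atTop (𝓝 L)

/-- The family `g j` is good for one real function. -/
def Good1 (μ : Measure X) (g : (Fin k → ℕ) → X → X) : Prop :=
  ∀ G : X → ℝ, Measurable G → (∃ C : ℝ, ∀ x, |G x| ≤ C) →
    ∀ᵐ x ∂μ, ∃ L : ℝ, Tendsto (fun N => bx k N fun m => G (g m x)) atTop (𝓝 L)

theorem prod_update (g : J → (Fin k → ℕ) → X → X) (F : J → X → ℂ) (j : J) (f : X → ℂ)
    (m : Fin k → ℕ) (x : X) :
    ∏ l, (Function.update F j f) l (g l m x) =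
      f (g j m x) * ∏ l ∈ Finset.univ.erase j, F l (g l m x) := by
  rw [← Finset.mul_prod_erase _ _ (Finset.mem_univ j), Function.update_self]
  congr 1
  apply Finset.prod_congr rfl
  intro l hl
  rw [Function.update_of_ne (Finset.ne_of_mem_erase hl)]

theorem Cv_add {μ : Measure X} {g : J → (Fin k → ℕ) → X → X} {F : J → X → ℂ} {j : J}
    {f f' : X → ℂ}
    (hf : Cv μ g (Function.update F j f)) (hg : Cv μ g (Function.update F j f')) :
    Cv μ g (Function.update F j (f + f')) := by
  filter_upwards [hf, hg] with x hx hx'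
  obtain ⟨L, hL⟩ := hx
  obtain ⟨L', hL'⟩ := hx'
  refine ⟨L + L', (hL.add hL').congr fun N => ?_⟩
  rw [← bxc_add]
  congr 1
  funext n
  rw [prod_update, prod_update, prod_update, Pi.add_apply, add_mul]

theorem Cv_smul {μ : Measure X} {g : J → (Fin k → ℕ) → X → X} {F : J → X → ℂ} {j : J}
    {f : X → ℂ} (c : ℂ) (hf : Cv μ g (Function.update F j f)) :
    Cv μ g (Function.update F j (c • f)) := by
  filter_upwards [hf] with x hx
  obtain ⟨L, hL⟩ := hx
  refine ⟨c * L, (hL.const_mul c).congr fun N => ?_⟩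
  rw [← bxc_mul]
  congr 1
  funext n
  rw [prod_update, prod_update, Pi.smul_apply, smul_eq_mul, mul_assoc]

theorem Cv_zero {μ : Measure X} {g : J → (Fin k → ℕ) → X → X} {F : J → X → ℂ} {j : J} :
    Cv μ g (Function.update F j (0 : X → ℂ)) := by
  refine Eventually.of_forall fun x => ⟨0, ?_⟩
  refine Tendsto.congr (fun N => ?_) (tendsto_const_nhds (x := (0 : ℂ)))
  rw [bxc]
  simp [prod_update]

/-- The integral of the limit. -/
theorem int_lim_le' {μ : Measure X} [IsProbabilityMeasure μ] {φ : (Fin k → ℕ) → X → X}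
    (hφ : ∀ m, MeasurePreserving (φ m) μ μ)
    {G : X → ℝ} (hG : Measurable G) {C : ℝ} (hC : 0 ≤ C) (hb : ∀ x, |G x| ≤ C)
    (h0 : ∀ x, 0 ≤ G x) {γ : X → ℝ}
    (hγ : ∀ᵐ x ∂μ, Tendsto (fun N => bx k N (fun m => G (φ m x))) atTop (𝓝 (γ x))) :
    0 ≤ᵐ[μ] γ ∧ Integrable γ μ ∧ ∫ x, γ x ∂μ ≤ ∫ x, G x ∂μ := by
  have hm : ∀ N, Measurable fun x => bx k N (fun m => G (φ m x)) := by
    intro N
    unfold bx
    exact (Finset.measurable_fun_sum _ fun m _ => hG.comp (hφ m).measurable).const_mul _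
  refine ⟨?_, ?_, ?_⟩
  · filter_upwards [hγ] with x hx
    exact ge_of_tendsto hx (Eventually.of_forall fun N => bx_nonneg fun m => h0 _)
  · have hms : AEStronglyMeasurable γ μ := aestronglyMeasurable_of_tendsto_ae atTop
        (fun N => (hm N).aestronglyMeasurable) hγ
    refine Integrable.of_bound hms C ?_
    filter_upwards [hγ] with x hx
    rw [Real.norm_eq_abs]
    exact le_of_tendsto hx.abs (Eventually.of_forall fun N => bx_bound hC fun m => hb _)
  have h1 := tendsto_integral_filter_of_dominated_convergence (l := atTop) (fun _ => C)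
    (Eventually.of_forall fun N => (hm N).aestronglyMeasurable)
    (Eventually.of_forall fun N => Eventually.of_forall fun x => by
      rw [Real.norm_eq_abs]
      exact bx_bound hC fun m => hb _)
    (integrable_const _) hγ
  refine le_of_tendsto h1 (Eventually.of_forall fun N => ?_)
  have hGi : Integrable G μ := Integrable.of_bound hG.aestronglyMeasurable C
    (Eventually.of_forall fun x => by
      rw [Real.norm_eq_abs]
      exact hb x)
  have h2 : ∀ m, ∫ x, G (φ m x) ∂μ = ∫ x, G x ∂μ := by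
    intro m
    have h3 := integral_map (μ := μ) (φ := φ m) (f := G)
      (hφ m).measurable.aemeasurable hG.aestronglyMeasurable
    rw [(hφ m).map_eq] at h3
    exact h3.symm
  have h4 : ∫ x, bx k N (fun m => G (φ m x)) ∂μ = bx k N (fun _ => ∫ x, G x ∂μ) := by
    unfold bx
    rw [integral_const_mul, integral_finsetSum]
    · rw [Finset.sum_congr rfl fun m _ => h2 m]
    · intro m _
      exact (hφ m).integrable_comp_of_integrable hGi
  rw [h4]
  exact bx_const_le (integral_nonneg h0)

/-- The class of good functions is closed under limits in `L¹`. -/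
theorem Cv_closed {μ : Measure X} [IsProbabilityMeasure μ] {g : J → (Fin k → ℕ) → X → X}
    (hg : ∀ j m, MeasurePreserving (g j m) μ μ) (hgood : ∀ j, Good1 μ (g j))
    {F : J → X → ℂ} (hF : ∀ l, BM (F l)) {j : J} {f : X → ℂ} (hf : BM f)
    (h : ∀ ε : ℝ, 0 < ε → ∃ f' : X → ℂ, BM f' ∧ ∫ x, ‖f x - f' x‖ ∂μ ≤ ε ∧
      Cv μ g (Function.update F j f')) :
    Cv μ g (Function.update F j f) := by
  obtain ⟨hfm, Cf, hCf⟩ := hf
  choose hFm CF hCF using hF
  set D : ℝ := ∏ l ∈ Finset.univ.erase j, (|CF l| + 1) with hD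
  have hD0 : 0 < D := Finset.prod_pos fun l _ => by positivity
  have hDb : ∀ (m : Fin k → ℕ) (x : X),
      ‖∏ l ∈ Finset.univ.erase j, F l (g l m x)‖ ≤ D := by
    intro m x
    rw [norm_prod]
    apply Finset.prod_le_prod (fun l _ => norm_nonneg _)
    intro l _
    exact ((hCF l _).trans (le_abs_self _)).trans (by linarith)
  set G := Function.update F j f with hG
  let Av : (J → X → ℂ) → (Fin k → ℕ) → X → ℂ :=
    fun E N x => bxc k N (fun m => ∏ l, E l (g l m x))
  have hbad : ∀ δ : ℝ, 0 < δ → ∀ᵐ x ∂μ, ∃ N₀, ∀ N, N₀ ≤ N → ∀ M, N₀ ≤ M →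
      ‖Av G N x - Av G M x‖ ≤ δ := by
    intro δ hδ
    rw [ae_iff, ← nonpos_iff_eq_zero]
    apply ENNReal.le_of_forall_pos_le_add
    intro ε hε _
    rw [zero_add]
    have hε' : (0 : ℝ) < ε := by exact_mod_cast hε
    obtain ⟨f', ⟨hgm, Cg, hCg⟩, hfg, hcv⟩ := h (ε * (δ / (4 * D))) (by positivity)
    let K : X → ℝ := fun x => ‖f x - f' x‖
    have hKm : Measurable K := (hfm.sub hgm).norm
    have hKb : ∀ x, |K x| ≤ |Cf + Cg| := fun x => by
      show |‖f x - f' x‖| ≤ _
      rw [abs_of_nonneg (norm_nonneg _)]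
      exact ((norm_sub_le _ _).trans (add_le_add (hCf x) (hCg x))).trans (le_abs_self _)
    have hB := hgood j K hKm ⟨_, hKb⟩
    let E : X → ℝ := fun x => limUnder atTop (fun N => bx k N fun m => K (g j m x))
    have hE : ∀ᵐ x ∂μ, Tendsto (fun N => bx k N fun m => K (g j m x)) atTop (𝓝 (E x)) := by
      filter_upwards [hB] with x hx
      exact tendsto_nhds_limUnder hx
    obtain ⟨hE0, hEi, hEint⟩ := int_lim_le' (hg j) hKm (abs_nonneg _) hKb
      (fun x => norm_nonneg _) hE
    have hmark := mul_meas_ge_le_integral_of_nonneg hE0 hEi (δ / (4 * D))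
    have hmark' : μ.real {x | δ / (4 * D) ≤ E x} ≤ ε := by
      have h1 : δ / (4 * D) * μ.real {x | δ / (4 * D) ≤ E x} ≤ δ / (4 * D) * ε := by
        refine hmark.trans ((hEint.trans hfg).trans ?_)
        rw [mul_comm]
      exact le_of_mul_le_mul_left h1 (by positivity)
    have hsub : ∀ᵐ x ∂μ, x ∈ {x | ¬ ∃ N₀, ∀ N, N₀ ≤ N → ∀ M, N₀ ≤ M →
        ‖Av G N x - Av G M x‖ ≤ δ} → x ∈ {x | δ / (4 * D) ≤ E x} := by
      filter_upwards [hE, hcv] with x hx1 hx2 hx3
      show δ / (4 * D) ≤ E x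
      by_contra hcon
      rw [not_le] at hcon
      apply hx3
      obtain ⟨L, hL⟩ := hx2
      have h2 := (tendsto_order.mp hx1).2 _ hcon
      obtain ⟨N₁, hN₁⟩ := eventually_atTop.mp h2
      obtain ⟨N₂, hN₂⟩ := Metric.tendsto_atTop.mp hL (δ / 4) (by positivity)
      have hclose : ∀ N, N₁ ≤ N → ‖Av G N x - Av (Function.update F j f') N x‖ ≤ δ / 4 := by
        intro N hN
        show ‖bxc k N (fun m => ∏ l, G l (g l m x)) -
          bxc k N (fun m => ∏ l, (Function.update F j f') l (g l m x))‖ ≤ δ / 4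
        rw [← bxc_sub]
        refine (bxc_norm _ _ _).trans ?_
        have h3 : ∀ m, ‖∏ l, G l (g l m x) - ∏ l, (Function.update F j f') l (g l m x)‖ ≤
            D * K (g j m x) := by
          intro m
          rw [hG, prod_update, prod_update, ← sub_mul, norm_mul, mul_comm]
          exact mul_le_mul_of_nonneg_right (hDb _ x) (norm_nonneg _)
        refine (bx_mono h3).trans ?_
        rw [bx_mul]
        calc D * bx k N (fun m => K (g j m x)) ≤ D * (δ / (4 * D)) :=
              mul_le_mul_of_nonneg_left (hN₁ N hN).le hD0.le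
          _ = δ / 4 := by field_simp
      refine ⟨N₁ ⊔ N₂, fun N hN M hM => ?_⟩
      have a1 := hclose N (le_sup_left.trans hN)
      have a2 := hclose M (le_sup_left.trans hM)
      have a3 : dist (Av (Function.update F j f') N x) L < δ / 4 := hN₂ N (le_sup_right.trans hN)
      have a4 : dist (Av (Function.update F j f') M x) L < δ / 4 := hN₂ M (le_sup_right.trans hM)
      rw [dist_eq_norm] at a3 a4
      have e1 : Av G N x - Av G M x = (Av G N x - Av (Function.update F j f') N x) +
          (Av (Function.update F j f') N x - L) - (Av (Function.update F j f') M x - L) -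
          (Av G M x - Av (Function.update F j f') M x) := by ring
      rw [e1]
      have b1 := norm_sub_le ((Av G N x - Av (Function.update F j f') N x) +
          (Av (Function.update F j f') N x - L) - (Av (Function.update F j f') M x - L))
          (Av G M x - Av (Function.update F j f') M x)
      have b2 := norm_sub_le ((Av G N x - Av (Function.update F j f') N x) +
          (Av (Function.update F j f') N x - L)) (Av (Function.update F j f') M x - L)
      have b3 := norm_add_le (Av G N x - Av (Function.update F j f') N x)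
          (Av (Function.update F j f') N x - L)
      linarith
    have h10 : μ {x | ¬ ∃ N₀, ∀ N, N₀ ≤ N → ∀ M, N₀ ≤ M →
        ‖Av G N x - Av G M x‖ ≤ δ} ≤ μ {x | δ / (4 * D) ≤ E x} := measure_mono_ae hsub
    refine h10.trans ?_
    have h9 : μ {x | δ / (4 * D) ≤ E x} = ENNReal.ofReal (μ.real {x | δ / (4 * D) ≤ E x}) := by
      rw [measureReal_def, ENNReal.ofReal_toReal (measure_ne_top _ _)]
    rw [h9]
    calc ENNReal.ofReal (μ.real {x | δ / (4 * D) ≤ E x}) ≤ ENNReal.ofReal (ε : ℝ) :=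
          ENNReal.ofReal_le_ofReal hmark'
      _ = ε := ENNReal.ofReal_coe_nnreal
  have hall := ae_all_iff.mpr fun i : ℕ => hbad (1 / ((i : ℝ) + 1)) (by positivity)
  filter_upwards [hall] with x hx
  apply cauchySeq_tendsto_of_complete
  rw [Metric.cauchySeq_iff']
  intro ε hε
  obtain ⟨i, hi⟩ := exists_nat_one_div_lt hε
  obtain ⟨N₀, hN₀⟩ := hx i
  refine ⟨N₀, fun n hn => ?_⟩
  rw [dist_eq_norm]
  exact (hN₀ n hn N₀ le_rfl).trans_lt hi

end general

end Pool.Agent.W761.Box
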