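import Pool.Agent.W761.Box.Clos
import Pool.Agent.W761.Gauss.Dens

/-!
# Box averages for Gaussian actions: exponentials
-/

set_option autoImplicit false
set_option linter.unusedSectionVars false

open Filter Topology MeasureTheory ProbabilityTheory
open scoped NNReal ENNReal

noncomputable section

namespace Pool.Agent.W761.Box

open Pool.Agent.W761.Gauss (GaussSpace ex ex_add ex_sum norm_ex meas_ex q q_comp q_smul Adm
  ext_of_finite_char)

section shift

variable {K : ℕ}

/-- The shift by the vector `v`. -/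
def sh (v : Fin K → ℕ) (ω : (Fin K → ℕ) → ℝ) : (Fin K → ℕ) → ℝ := fun m => ω (m + v)

theorem orb_sh : ∀ (k : ℕ) (v : Fin k → (Fin K → ℕ)) (m : Fin k → ℕ) (ω : (Fin K → ℕ) → ℝ),
    orb k (fun l => sh (v l)) m ω = sh (∑ l, m l • v l) ω
  | 0, v, m, ω => by
    funext m'
    simp [orb, sh]
  | k + 1, v, m, ω => by
    have h1 := orb_sh k (Fin.tail v) (Fin.tail m) ω
    have h2 : ∀ (n : ℕ) (w : Fin K → ℕ) (ω : (Fin K → ℕ) → ℝ), (sh w)^[n] ω = sh (n • w) ω := by
      intro n
      induction n with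
      | zero =>
        intro w ω
        funext m'
        simp [sh]
      | succ n ih =>
        intro w ω
        rw [Function.iterate_succ_apply, ih]
        funext m'
        show ω (m' + n • w + w) = ω (m' + (n + 1) • w)
        rw [succ_nsmul, add_assoc]
    show (sh (v 0))^[m 0] (orb k (fun l => sh (Fin.tail v l)) (Fin.tail m) ω) = _
    rw [h1, h2, Fin.sum_univ_succ]
    funext m'
    show ω (m' + m 0 • v 0 + ∑ l, Fin.tail m l • Fin.tail v l) =
      ω (m' + (m 0 • v 0 + ∑ l : Fin k, m l.succ • v l.succ))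
    rw [add_assoc]
    rfl

/-- Convergence for the exponential of a stationary field. -/
theorem pg_field {k : ℕ} {P : Measure ((Fin k → ℕ) → ℝ)} [IsProbabilityMeasure P]
    (hP : ∀ l, P.map (sh (Pi.single l 1)) = P) :
    ∀ᵐ ω ∂P, ∃ L : ℂ, Tendsto (fun N => bxc k N fun m => ex (ω m)) atTop (𝓝 L) := by
  have hm : ∀ v : Fin k → ℕ, Measurable (sh v) := fun v =>
    measurable_pi_lambda _ fun n => measurable_pi_apply _
  have hS : ∀ l : Fin k, MeasurePreserving (sh (Pi.single l 1)) P P := fun l => ⟨hm _, hP l⟩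
  have hit : ∀ (m : Fin k → ℕ) (ω : (Fin k → ℕ) → ℝ),
      orb k (fun l => sh (Pi.single l 1)) m ω 0 = ω m := by
    intro m ω
    rw [orb_sh]
    show ω (0 + ∑ l, m l • Pi.single l 1) = ω m
    rw [zero_add]
    congr 1
    funext i
    rw [Finset.sum_apply]
    simp [Pi.single_apply]
  have h1 := dz k (fun l => sh (Pi.single l 1)) hS (fun ω => Real.cos (ω 0))
    (Real.measurable_cos.comp (measurable_pi_apply 0)) 1 fun ω => Real.abs_cos_le_one _
  have h2 := dz k (fun l => sh (Pi.single l 1)) hS (fun ω => Real.sin (ω 0))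
    (Real.measurable_sin.comp (measurable_pi_apply 0)) 1 fun ω => Real.abs_sin_le_one _
  filter_upwards [h1, h2] with ω hω1 hω2
  simp only [hit] at hω1 hω2
  apply bxc_of_bx
  · simpa only [ex, Complex.exp_ofReal_mul_I_re] using hω1
  · simpa only [ex, Complex.exp_ofReal_mul_I_im] using hω2

end shift

variable {X : Type*} [MeasurableSpace X] {μ : Measure X} {H : Submodule ℝ (X → ℝ)}
variable {I : Type*} [Fintype I] {k : ℕ}

/-- The auxiliary process. -/
def proc (ξ : (Fin k → ℕ) → X → ℝ) (u : I → (Fin k → ℕ) → X → ℝ) (n : Fin k → ℕ)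
    (p : X × (I → X)) : ℝ :=
  ξ n p.1 + ∑ i, u i n (p.2 i)

theorem proc_comb (ξ : (Fin k → ℕ) → X → ℝ) (u : I → (Fin k → ℕ) → X → ℝ)
    (s : Finset (Fin k → ℕ)) (t : (Fin k → ℕ) → ℝ) (p : X × (I → X)) :
    ∑ n ∈ s, t n * proc ξ u n p = (∑ n ∈ s, t n • ξ n) p.1 +
      ∑ i, (∑ n ∈ s, t n • u i n) (p.2 i) := by
  simp only [proc, Finset.sum_apply, Pi.smul_apply, smul_eq_mul, mul_add, Finset.sum_add_distrib,
    Finset.mul_sum]
  congr 1
  rw [Finset.sum_comm]

theorem meas_proc {ξ : (Fin k → ℕ) → X → ℝ} {u : I → (Fin k → ℕ) → X → ℝ}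
    (hξ : ∀ n, Measurable (ξ n)) (hu : ∀ i n, Measurable (u i n)) (n : Fin k → ℕ) :
    Measurable (proc ξ u n) := by
  apply Measurable.add ((hξ n).comp measurable_fst)
  apply Finset.measurable_fun_sum
  intro i _
  exact (hu i n).comp ((measurable_pi_apply i).comp measurable_snd)

/-- The auxiliary process is stationary. -/
theorem stationary [IsProbabilityMeasure μ] (hH : GaussSpace μ H) {ξ : (Fin k → ℕ) → X → ℝ}
    {u : I → (Fin k → ℕ) → X → ℝ} (hξ : ∀ n, ξ n ∈ H) (hu : ∀ i n, u i n ∈ H) (v : Fin k → ℕ)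
    (hst : ∀ (s : Finset (Fin k → ℕ)) (t : (Fin k → ℕ) → ℝ),
      q μ (∑ n ∈ s, t n • ξ (n + v)) + ∑ i, q μ (∑ n ∈ s, t n • u i (n + v)) =
      q μ (∑ n ∈ s, t n • ξ n) + ∑ i, q μ (∑ n ∈ s, t n • u i n)) :
    ((μ.prod (Measure.pi fun _ : I => μ)).map (fun p n => proc ξ u n p)).map (sh v) =
      (μ.prod (Measure.pi fun _ : I => μ)).map (fun p n => proc ξ u n p) := by
  have hξm : ∀ n, Measurable (ξ n) := fun n => hH.meas _ (hξ n)
  have hum : ∀ i n, Measurable (u i n) := fun i n => hH.meas _ (hu i n)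
  have hpm : Measurable fun (p : X × (I → X)) (n : Fin k → ℕ) => proc ξ u n p :=
    measurable_pi_lambda _ fun n => meas_proc hξm hum n
  have hm : Measurable (sh v) := measurable_pi_lambda _ fun n => measurable_pi_apply _
  rw [Measure.map_map hm hpm]
  have hP1 : IsProbabilityMeasure ((μ.prod (Measure.pi fun _ : I => μ)).map
      (fun p n => proc ξ u n p)) := Measure.isProbabilityMeasure_map hpm.aemeasurable
  have hP2 : IsProbabilityMeasure ((μ.prod (Measure.pi fun _ : I => μ)).map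
      (sh v ∘ fun p n => proc ξ u n p)) :=
    Measure.isProbabilityMeasure_map (hm.comp hpm).aemeasurable
  apply ext_of_finite_char
  intro s t
  have hc : ∀ ν : Measure ((Fin k → ℕ) → ℝ), AEStronglyMeasurable (fun ω : (Fin k → ℕ) → ℝ =>
      Complex.exp ((∑ i ∈ s, t i * ω i : ℝ) * Complex.I)) ν := by
    intro ν
    have : Measurable fun ω : (Fin k → ℕ) → ℝ => ex (∑ i ∈ s, t i * ω i) := by
      apply meas_ex.comp
      exact Finset.measurable_fun_sum _ fun i _ => (measurable_pi_apply i).const_mul _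
    exact this.aestronglyMeasurable
  rw [integral_map (hm.comp hpm).aemeasurable (hc _), integral_map hpm.aemeasurable (hc _)]
  have e1 := hH.int_ex_prod (I := I) (a := ∑ n ∈ s, t n • ξ n) (b := fun i => ∑ n ∈ s, t n • u i n)
    (H.sum_mem fun n _ => H.smul_mem _ (hξ n)) (fun i => H.sum_mem fun n _ => H.smul_mem _ (hu i n))
  have e2 := hH.int_ex_prod (I := I) (a := ∑ n ∈ s, t n • ξ (n + v))
    (b := fun i => ∑ n ∈ s, t n • u i (n + v))
    (H.sum_mem fun n _ => H.smul_mem _ (hξ _)) (fun i => H.sum_mem fun n _ => H.smul_mem _ (hu i _))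
  rw [hst, ← e1] at e2
  calc _ = ∫ p : X × (I → X), ex ((∑ n ∈ s, t n • ξ (n + v)) p.1 +
        ∑ i, (∑ n ∈ s, t n • u i (n + v)) (p.2 i)) ∂(μ.prod (Measure.pi fun _ => μ)) := by
        apply integral_congr_ae
        refine Eventually.of_forall fun p => ?_
        have := proc_comb (fun n => ξ (n + v)) (fun i n => u i (n + v)) s t p
        exact congrArg ex this
    _ = _ := e2
    _ = _ := by
        apply integral_congr_ae
        refine Eventually.of_forall fun p => ?_
        have := proc_comb ξ u s t p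
        exact congrArg ex this.symm

/-- **Core statement.** -/
theorem core [IsProbabilityMeasure μ] (hH : GaussSpace μ H)
    {ξ : (Fin k → ℕ) → X → ℝ} {u : I → (Fin k → ℕ) → X → ℝ} {v : I → X → ℝ}
    (hξ : ∀ n, ξ n ∈ H) (hu : ∀ i n, u i n ∈ H) (hv : ∀ i, v i ∈ H)
    (hst : ∀ (l : Fin k) (s : Finset (Fin k → ℕ)) (t : (Fin k → ℕ) → ℝ),
      q μ (∑ n ∈ s, t n • ξ (n + Pi.single l 1)) +
        ∑ i, q μ (∑ n ∈ s, t n • u i (n + Pi.single l 1)) =
      q μ (∑ n ∈ s, t n • ξ n) + ∑ i, q μ (∑ n ∈ s, t n • u i n))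
    {Q₀ : ℝ} (hQ : ∀ n, ∑ i, q μ (u i n + v i) = Q₀) :
    ∀ᵐ x ∂μ, ∃ L : ℂ, Tendsto (fun N => bxc k N fun n => ex (ξ n x)) atTop (𝓝 L) := by
  have hξm : ∀ n, Measurable (ξ n) := fun n => hH.meas _ (hξ n)
  have hum : ∀ i n, Measurable (u i n) := fun i n => hH.meas _ (hu i n)
  have hvm : ∀ i, Measurable (v i) := fun i => hH.meas _ (hv i)
  have hpm : Measurable fun (p : X × (I → X)) (n : Fin k → ℕ) => proc ξ u n p :=
    measurable_pi_lambda _ fun n => meas_proc hξm hum n
  have hP1 : IsProbabilityMeasure ((μ.prod (Measure.pi fun _ : I => μ)).map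
      (fun p n => proc ξ u n p)) := Measure.isProbabilityMeasure_map hpm.aemeasurable
  have hB := pg_field fun l => stationary hH hξ hu (Pi.single l 1) (hst l)
  have hB' := ae_of_ae_map hpm.aemeasurable hB
  have hB'' := Measure.ae_ae_of_ae_prod hB'
  filter_upwards [hB''] with x hx
  set ν : Measure (I → X) := Measure.pi fun _ => μ with hν
  let F : (Fin k → ℕ) → (I → X) → ℂ := fun N ω => bxc k N (fun n => ex (proc ξ u n (x, ω))) *
    ex (∑ i, v i (ω i))
  have hterm : ∀ n, Measurable fun ω : I → X => ex (proc ξ u n (x, ω)) := fun n =>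
    meas_ex.comp ((meas_proc hξm hum n).comp measurable_prodMk_left)
  have hvs : Measurable fun ω : I → X => ex (∑ i, v i (ω i)) := by
    apply meas_ex.comp
    exact Finset.measurable_fun_sum _ fun i _ => (hvm i).comp (measurable_pi_apply i)
  have hFm : ∀ N, AEStronglyMeasurable (F N) ν := by
    intro N
    apply Measurable.aestronglyMeasurable
    refine Measurable.mul ?_ hvs
    unfold bxc
    exact ((Finset.measurable_fun_sum _ fun n _ => hterm _).const_mul _)
  have hFb : ∀ N, ∀ᵐ ω ∂ν, ‖F N ω‖ ≤ (fun _ => (1 : ℝ)) ω := by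
    intro N
    refine Eventually.of_forall fun ω => ?_
    show ‖bxc k N (fun n => ex (proc ξ u n (x, ω))) * ex (∑ i, v i (ω i))‖ ≤ 1
    rw [norm_mul, norm_ex, mul_one]
    exact bxc_bound zero_le_one fun n => (norm_ex _).le
  have hlim : ∀ᵐ ω ∂ν, Tendsto (fun N => F N ω) atTop
      (𝓝 (limUnder atTop (fun N => F N ω))) := by
    filter_upwards [hx] with ω hω
    apply tendsto_nhds_limUnder
    obtain ⟨L, hL⟩ := hω
    exact ⟨L * ex (∑ i, v i (ω i)), hL.mul_const _⟩
  have hD := tendsto_integral_filter_of_dominated_convergence (l := atTop) (fun _ => (1 : ℝ))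
    (Eventually.of_forall hFm) (Eventually.of_forall hFb) (integrable_const _) hlim
  have hint : ∀ N, ∫ ω, F N ω ∂ν = Complex.exp ((-Q₀ / 2 : ℝ) : ℂ) *
      bxc k N (fun n => ex (ξ n x)) := by
    intro N
    have hsplit : ∀ n ω, ex (proc ξ u n (x, ω)) * ex (∑ i, v i (ω i)) =
        ex (ξ n x) * ex (∑ i, (u i n + v i) (ω i)) := by
      intro n ω
      rw [proc, ex_add, mul_assoc, ← ex_add, ← Finset.sum_add_distrib]
      rfl
    have h1 : ∀ ω, F N ω = (∏ j, (N j : ℂ))⁻¹ * ∑ n ∈ Fintype.piFinset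
        (fun j => Finset.range (N j)), ex (ξ n x) * ex (∑ i, (u i n + v i) (ω i)) := by
      intro ω
      show bxc k N (fun n => ex (proc ξ u n (x, ω))) * ex (∑ i, v i (ω i)) = _
      rw [bxc, mul_assoc, Finset.sum_mul]
      congr 1
      exact Finset.sum_congr rfl fun n _ => hsplit _ ω
    simp only [h1]
    rw [integral_const_mul, integral_finsetSum]
    · have h2 : ∀ n, ∫ ω, ex (ξ n x) * ex (∑ i, (u i n + v i) (ω i)) ∂ν =
          ex (ξ n x) * Complex.exp ((-Q₀ / 2 : ℝ) : ℂ) := by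
        intro n
        rw [integral_const_mul, hH.int_ex_pi fun i => H.add_mem (hu i n) (hv i), hQ n]
      rw [Finset.sum_congr rfl fun n _ => h2 n, ← Finset.sum_mul, bxc]
      ring
    · intro n _
      apply Integrable.const_mul
      refine Integrable.mono' (integrable_const (1 : ℝ)) ?_ (Eventually.of_forall fun ω => ?_)
      · apply Measurable.aestronglyMeasurable
        apply meas_ex.comp
        exact Finset.measurable_fun_sum _ fun i _ =>
          ((hum i n).add (hvm i)).comp (measurable_pi_apply i)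
      · rw [norm_ex]
  simp only [hint] at hD
  have hne : Complex.exp ((-Q₀ / 2 : ℝ) : ℂ) ≠ 0 := Complex.exp_ne_zero _
  refine ⟨(Complex.exp ((-Q₀ / 2 : ℝ) : ℂ))⁻¹ * _, (hD.const_mul
    (Complex.exp ((-Q₀ / 2 : ℝ) : ℂ))⁻¹).congr fun N => ?_⟩
  rw [← mul_assoc, inv_mul_cancel₀ hne, one_mul]

variable {J : Type*} [Fintype J] {A : Type*} [AddCommGroup A]

/-- **Convergence for exponentials.** -/
theorem conv_exp [IsProbabilityMeasure μ] (hH : GaussSpace μ H) {Φ : A → Equiv.Perm X}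
    (hΦ : ∀ a b, Φ (a + b) = Φ a * Φ b) (hadm : ∀ a, Adm μ H (Φ a))
    {E : J → (Fin k → ℕ) → A}
    (hE : ∀ l : Fin k, ∃ a : J → A, ∀ j m, E j (m + Pi.single l 1) = E j m + a j)
    {h : J → X → ℝ} (hh : ∀ j, h j ∈ H) :
    ∀ᵐ x ∂μ, ∃ L : ℂ, Tendsto (fun N => bxc k N fun m =>
      ex (∑ j, h j (Φ (E j m) x))) atTop (𝓝 L) := by
  set c : ℝ := Real.sqrt 2⁻¹ with hcdef
  have hc2 : c ^ 2 = 2⁻¹ := Real.sq_sqrt (by norm_num)
  let ξ : (Fin k → ℕ) → X → ℝ := fun n => ∑ j, h j ∘ Φ (E j n)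
  let u : (J × J) ⊕ (J × J) → (Fin k → ℕ) → X → ℝ := fun i n =>
    Sum.elim (fun p : J × J => c • (h p.1 ∘ Φ (E p.1 n) - h p.2 ∘ Φ (E p.2 n)))
      (fun p : J × J => c • (h p.1 ∘ Φ (E p.1 n - E p.2 n))) i
  let v : (J × J) ⊕ (J × J) → X → ℝ := Sum.elim (fun _ => 0) (fun p : J × J => c • h p.2)
  have hξ : ∀ n, ξ n ∈ H := fun n => H.sum_mem fun j _ => (hadm _).st _ (hh j)
  have hu : ∀ i n, u i n ∈ H := by
    intro i n
    rcases i with p | p
    · exact H.smul_mem _ (H.sub_mem ((hadm _).st _ (hh _)) ((hadm _).st _ (hh _)))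
    · exact H.smul_mem _ ((hadm _).st _ (hh _))
  have hv : ∀ i, v i ∈ H := by
    intro i
    rcases i with p | p
    · exact H.zero_mem
    · exact H.smul_mem _ (hh _)
  have hcore := core (I := (J × J) ⊕ (J × J)) hH hξ hu hv
    (Q₀ := ∑ j, ∑ k, (q μ (h j) + q μ (h k))) ?_ ?_
  · filter_upwards [hcore] with x hx
    obtain ⟨L, hL⟩ := hx
    refine ⟨L, hL.congr fun N => ?_⟩
    congr 1
    funext n
    show ex ((∑ j, h j ∘ Φ (E j n)) x) = _
    rw [Finset.sum_apply]
    rfl
  · intro l s t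
    obtain ⟨a, ha⟩ := hE l
    set e : Fin k → ℕ := Pi.single l 1 with he
    let B : J → X → ℝ := fun j => ∑ n ∈ s, t n • (h j ∘ Φ (E j n))
    let B' : J → X → ℝ := fun j => ∑ n ∈ s, t n • (h j ∘ Φ (E j (n + e)))
    let C : J → J → X → ℝ := fun j k => ∑ n ∈ s, t n • (h j ∘ Φ (E j n - E k n))
    let C' : J → J → X → ℝ := fun j k => ∑ n ∈ s, t n • (h j ∘ Φ (E j (n + e) - E k (n + e)))
    have hB : ∀ j, B j ∈ H := fun j => H.sum_mem fun n _ =>
      H.smul_mem _ ((hadm _).st _ (hh j))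
    have hB' : ∀ j, B' j ∈ H := fun j => H.sum_mem fun n _ =>
      H.smul_mem _ ((hadm _).st _ (hh j))
    have hC : ∀ j k, C j k ∈ H := fun j k => H.sum_mem fun n _ =>
      H.smul_mem _ ((hadm _).st _ (hh j))
    have hBB : ∀ j, q μ (B' j) = q μ (B j) := by
      intro j
      have : B' j = B j ∘ Φ (a j) := by
        ext x
        show (∑ n ∈ s, t n • (h j ∘ Φ (E j (n + e)))) x =
          (∑ n ∈ s, t n • (h j ∘ Φ (E j n))) (Φ (a j) x)
        simp only [Finset.sum_apply, Pi.smul_apply, Function.comp_apply]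
        apply Finset.sum_congr rfl
        intro n _
        rw [ha, hΦ, Equiv.Perm.mul_apply]
      rw [this, q_comp (hadm _).mp (hH.meas _ (hB j))]
    have hCC : ∀ j k, q μ (C' j k) = q μ (C j k) := by
      intro j k
      have : C' j k = C j k ∘ Φ (a j - a k) := by
        ext x
        show (∑ n ∈ s, t n • (h j ∘ Φ (E j (n + e) - E k (n + e)))) x =
          (∑ n ∈ s, t n • (h j ∘ Φ (E j n - E k n))) (Φ (a j - a k) x)
        simp only [Finset.sum_apply, Pi.smul_apply, Function.comp_apply]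
        apply Finset.sum_congr rfl
        intro n _
        rw [ha, ha, add_sub_add_comm, hΦ, Equiv.Perm.mul_apply]
      rw [this, q_comp (hadm _).mp (hH.meas _ (hC j k))]
    have e1 : ∑ n ∈ s, t n • ξ n = ∑ j, B j := by
      show ∑ n ∈ s, t n • (∑ j, h j ∘ Φ (E j n)) = _
      simp only [Finset.smul_sum]
      rw [Finset.sum_comm]
    have e1' : ∑ n ∈ s, t n • ξ (n + e) = ∑ j, B' j := by
      show ∑ n ∈ s, t n • (∑ j, h j ∘ Φ (E j (n + e))) = _
      simp only [Finset.smul_sum]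
      rw [Finset.sum_comm]
    have e2 : ∀ p : J × J, ∑ n ∈ s, t n • u (Sum.inl p) n = c • (B p.1 - B p.2) := by
      intro p
      show ∑ n ∈ s, t n • (c • (h p.1 ∘ Φ (E p.1 n) - h p.2 ∘ Φ (E p.2 n))) = _
      rw [← Finset.sum_sub_distrib, Finset.smul_sum]
      apply Finset.sum_congr rfl
      intro n _
      rw [smul_comm, smul_sub]
    have e2' : ∀ p : J × J, ∑ n ∈ s, t n • u (Sum.inl p) (n + e) = c • (B' p.1 - B' p.2) := by
      intro p
      show ∑ n ∈ s, t n • (c • (h p.1 ∘ Φ (E p.1 (n + e)) - h p.2 ∘ Φ (E p.2 (n + e)))) = _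
      rw [← Finset.sum_sub_distrib, Finset.smul_sum]
      apply Finset.sum_congr rfl
      intro n _
      rw [smul_comm, smul_sub]
    have e3 : ∀ p : J × J, ∑ n ∈ s, t n • u (Sum.inr p) n = c • C p.1 p.2 := by
      intro p
      show ∑ n ∈ s, t n • (c • (h p.1 ∘ Φ (E p.1 n - E p.2 n))) = _
      rw [Finset.smul_sum]
      apply Finset.sum_congr rfl
      intro n _
      rw [smul_comm]
    have e3' : ∀ p : J × J, ∑ n ∈ s, t n • u (Sum.inr p) (n + e) = c • C' p.1 p.2 := by
      intro p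
      show ∑ n ∈ s, t n • (c • (h p.1 ∘ Φ (E p.1 (n + e) - E p.2 (n + e)))) = _
      rw [Finset.smul_sum]
      apply Finset.sum_congr rfl
      intro n _
      rw [smul_comm]
    rw [Fintype.sum_sum_type, Fintype.sum_sum_type]
    simp only [e1, e1', e2, e2', e3, e3', q_smul, hc2]
    rw [Fintype.sum_prod_type, Fintype.sum_prod_type, Fintype.sum_prod_type,
      Fintype.sum_prod_type]
    simp only [hCC]
    have i1 := hH.q_identity hB
    have i2 := hH.q_identity hB'
    simp only [hBB] at i2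
    linarith
  · intro n
    rw [Fintype.sum_sum_type]
    have f1 : ∀ p : J × J, q μ (u (Sum.inl p) n + v (Sum.inl p)) =
        2⁻¹ * q μ (h p.1 ∘ Φ (E p.1 n) - h p.2 ∘ Φ (E p.2 n)) := by
      intro p
      show q μ (c • (h p.1 ∘ Φ (E p.1 n) - h p.2 ∘ Φ (E p.2 n)) + 0) = _
      rw [add_zero, q_smul, hc2]
    have f2 : ∀ p : J × J, q μ (u (Sum.inr p) n + v (Sum.inr p)) =
        2⁻¹ * q μ (h p.1 ∘ Φ (E p.1 n) + h p.2 ∘ Φ (E p.2 n)) := by
      intro p
      show q μ (c • (h p.1 ∘ Φ (E p.1 n - E p.2 n)) + c • h p.2) = _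
      rw [← smul_add, q_smul, hc2]
      congr 1
      have g1 : h p.1 ∘ Φ (E p.1 n - E p.2 n) + h p.2 ∈ H :=
        H.add_mem ((hadm _).st _ (hh _)) (hh _)
      rw [← q_comp (hadm (E p.2 n)).mp (hH.meas _ g1)]
      congr 1
      ext x
      simp only [Function.comp_apply, Pi.add_apply]
      rw [← Equiv.Perm.mul_apply, ← hΦ, sub_add_cancel]
    simp only [f1, f2]
    rw [← Finset.sum_add_distrib, Fintype.sum_prod_type]
    apply Finset.sum_congr rfl
    intro j _
    apply Finset.sum_congr rfl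
    intro k' _
    have g4 := hH.q_par ((hadm (E j n)).st _ (hh j)) ((hadm (E k' n)).st _ (hh k'))
    rw [q_comp (hadm (E j n)).mp (hH.meas _ (hh j)),
      q_comp (hadm (E k' n)).mp (hH.meas _ (hh k'))] at g4
    rw [← mul_add]
    linarith

end Pool.Agent.W761.Box
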