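import Pool.Agent.H165R3.BPE

/-!
# The multi-parameter pointwise ergodic theorem for bounded functions
-/

set_option autoImplicit false

open Filter Topology MeasureTheory

noncomputable section

namespace Pool.Agent.W761.Box

/-- Box averages. -/
def bx (k : ℕ) (N : Fin k → ℕ) (a : (Fin k → ℕ) → ℝ) : ℝ :=
  (∏ j, (N j : ℝ))⁻¹ * ∑ m ∈ Fintype.piFinset (fun j => Finset.range (N j)), a m

theorem bx_add (k : ℕ) (N : Fin k → ℕ) (a b : (Fin k → ℕ) → ℝ) :
    bx k N (fun m => a m + b m) = bx k N a + bx k N b := by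
  rw [bx, bx, bx, Finset.sum_add_distrib, mul_add]

theorem bx_sub (k : ℕ) (N : Fin k → ℕ) (a b : (Fin k → ℕ) → ℝ) :
    bx k N (fun m => a m - b m) = bx k N a - bx k N b := by
  rw [bx, bx, bx, Finset.sum_sub_distrib, mul_sub]

theorem bx_mul (k : ℕ) (N : Fin k → ℕ) (c : ℝ) (a : (Fin k → ℕ) → ℝ) :
    bx k N (fun m => c * a m) = c * bx k N a := by
  rw [bx, bx, ← Finset.mul_sum]
  ring

theorem bx_sum (k : ℕ) (N : Fin k → ℕ) {ι : Type*} (s : Finset ι) (a : ι → (Fin k → ℕ) → ℝ) :
    bx k N (fun m => ∑ i ∈ s, a i m) = ∑ i ∈ s, bx k N (a i) := by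
  simp only [bx]
  rw [Finset.sum_comm, Finset.mul_sum]

theorem bx_mono {k : ℕ} {N : Fin k → ℕ} {a b : (Fin k → ℕ) → ℝ} (h : ∀ m, a m ≤ b m) :
    bx k N a ≤ bx k N b := by
  rw [bx, bx]
  exact mul_le_mul_of_nonneg_left (Finset.sum_le_sum fun m _ => h m) (by positivity)

theorem bx_abs {k : ℕ} {N : Fin k → ℕ} {a : (Fin k → ℕ) → ℝ} :
    |bx k N a| ≤ bx k N (fun m => |a m|) := by
  rw [bx, bx, abs_mul, abs_of_nonneg (by positivity : (0 : ℝ) ≤ (∏ j, (N j : ℝ))⁻¹)]
  exact mul_le_mul_of_nonneg_left (Finset.abs_sum_le_sum_abs _ _) (by positivity)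

theorem bx_const_le {k : ℕ} {N : Fin k → ℕ} {C : ℝ} (hC : 0 ≤ C) :
    bx k N (fun _ => C) ≤ C := by
  rw [bx, Finset.sum_const, Fintype.card_piFinset, nsmul_eq_mul]
  simp only [Finset.card_range]
  push_cast
  rcases eq_or_ne (∏ j, (N j : ℝ)) 0 with h | h
  · rw [h]
    simpa using hC
  · rw [← mul_assoc, inv_mul_cancel₀ h, one_mul]

theorem bx_bound {k : ℕ} {N : Fin k → ℕ} {a : (Fin k → ℕ) → ℝ} {C : ℝ} (hC : 0 ≤ C)
    (h : ∀ m, |a m| ≤ C) : |bx k N a| ≤ C :=
  (bx_abs.trans (bx_mono h)).trans (bx_const_le hC)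

theorem bx_nonneg {k : ℕ} {N : Fin k → ℕ} {a : (Fin k → ℕ) → ℝ} (h : ∀ m, 0 ≤ a m) :
    0 ≤ bx k N a := by
  rw [bx]
  exact mul_nonneg (by positivity) (Finset.sum_nonneg fun m _ => h m)

/-- The recursion. -/
theorem bx_succ (k : ℕ) (N : Fin (k + 1) → ℕ) (a : (Fin (k + 1) → ℕ) → ℝ) :
    bx (k + 1) N a = bx k (Fin.tail N) (fun m => (N 0 : ℝ)⁻¹ *
      ∑ i ∈ Finset.range (N 0), a (Fin.cons i m)) := by
  rw [bx, bx, Fin.prod_univ_succ, mul_inv]
  rw [← Finset.mul_sum, Finset.sum_comm]
  have h1 : ∑ m ∈ Fintype.piFinset (fun j => Finset.range (N j)), a m =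
      ∑ p ∈ Finset.range (N 0) ×ˢ Fintype.piFinset (fun j => Finset.range (Fin.tail N j)),
        a (Fin.cons p.1 p.2) := by
    refine Finset.sum_bij' (fun m _ => (m 0, Fin.tail m)) (fun p _ => Fin.cons p.1 p.2)
      ?_ ?_ ?_ ?_ ?_
    · intro m hm
      rw [Fintype.mem_piFinset] at hm
      rw [Finset.mem_product, Fintype.mem_piFinset]
      exact ⟨hm 0, fun j => hm j.succ⟩
    · intro p hp
      rw [Finset.mem_product, Fintype.mem_piFinset] at hp
      rw [Fintype.mem_piFinset]
      intro j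
      refine Fin.cases ?_ (fun i => ?_) j
      · exact hp.1
      · exact hp.2 i
    · intro m _
      exact Fin.cons_self_tail m
    · intro p _
      rfl
    · intro m _
      show a m = a (Fin.cons (m 0) (Fin.tail m))
      rw [Fin.cons_self_tail]
  rw [h1, Finset.sum_product]
  simp only [Fin.tail]
  ring

variable {Ω : Type*}

/-- The orbit map of `k` maps. -/
def orb : (k : ℕ) → (Fin k → Ω → Ω) → (Fin k → ℕ) → Ω → Ω
  | 0, _, _, x => x
  | k + 1, σ, m, x => (σ 0)^[m 0] (orb k (Fin.tail σ) (Fin.tail m) x)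

variable [MeasurableSpace Ω] {P : Measure Ω} [IsProbabilityMeasure P]

omit [IsProbabilityMeasure P] in
theorem orb_mp : ∀ (k : ℕ) (σ : Fin k → Ω → Ω) (_ : ∀ j, MeasurePreserving (σ j) P P)
    (m : Fin k → ℕ), MeasurePreserving (orb k σ m) P P
  | 0, _, _, _ => MeasurePreserving.id P
  | k + 1, σ, hσ, m => by
    have h1 := orb_mp k (Fin.tail σ) (fun j => hσ _) (Fin.tail m)
    exact ((hσ 0).iterate (m 0)).comp h1

/-- The integral of the limit. -/
theorem int_lim_le {k : ℕ} {σ : Fin k → Ω → Ω} (hσ : ∀ j, MeasurePreserving (σ j) P P)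
    {G : Ω → ℝ} (hG : Measurable G) {C : ℝ} (hC : 0 ≤ C) (hb : ∀ x, |G x| ≤ C)
    (h0 : ∀ x, 0 ≤ G x) {γ : Ω → ℝ}
    (hγ : ∀ᵐ x ∂P, Tendsto (fun N => bx k N (fun m => G (orb k σ m x))) atTop (𝓝 (γ x))) :
    ∫ x, γ x ∂P ≤ ∫ x, G x ∂P := by
  have hm : ∀ N, Measurable fun x => bx k N (fun m => G (orb k σ m x)) := by
    intro N
    unfold bx
    exact (Finset.measurable_fun_sum _ fun m _ =>
      hG.comp (orb_mp k σ hσ m).measurable).const_mul _
  have h1 := tendsto_integral_filter_of_dominated_convergence (l := atTop) (fun _ => C)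
    (Eventually.of_forall fun N => (hm N).aestronglyMeasurable)
    (Eventually.of_forall fun N => Eventually.of_forall fun x => by
      rw [Real.norm_eq_abs]
      exact bx_bound hC fun m => hb _)
    (integrable_const _) hγ
  refine le_of_tendsto h1 (Eventually.of_forall fun N => ?_)
  have hGi : Integrable G P := Integrable.of_bound hG.aestronglyMeasurable C
    (Eventually.of_forall fun x => by
      rw [Real.norm_eq_abs]
      exact hb x)
  have h2 : ∀ m, ∫ x, G (orb k σ m x) ∂P = ∫ x, G x ∂P := by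
    intro m
    have h3 := integral_map (μ := P) (φ := orb k σ m) (f := G)
      (orb_mp k σ hσ m).measurable.aemeasurable hG.aestronglyMeasurable
    rw [(orb_mp k σ hσ m).map_eq] at h3
    exact h3.symm
  have h4 : ∫ x, bx k N (fun m => G (orb k σ m x)) ∂P = bx k N (fun _ => ∫ x, G x ∂P) := by
    unfold bx
    rw [integral_const_mul, integral_finsetSum]
    · rw [Finset.sum_congr rfl fun m _ => h2 m]
    · intro m _
      exact (orb_mp k σ hσ m).integrable_comp_of_integrable hGi
  rw [h4]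
  exact bx_const_le (integral_nonneg h0)

/-- **The multi-parameter pointwise ergodic theorem** for bounded functions. -/
theorem dz : ∀ (k : ℕ) (σ : Fin k → Ω → Ω) (_ : ∀ j, MeasurePreserving (σ j) P P) (F : Ω → ℝ)
    (_ : Measurable F) (C : ℝ) (_ : ∀ x, |F x| ≤ C),
    ∀ᵐ x ∂P, ∃ L : ℝ, Tendsto (fun N => bx k N (fun m => F (orb k σ m x))) atTop (𝓝 L) := by
  intro k
  induction k with
  | zero =>
    intro σ _ F _ C _
    refine Eventually.of_forall fun x => ⟨F x, ?_⟩
    refine Tendsto.congr (fun N => ?_) (tendsto_const_nhds (x := F x))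
    simp [bx, orb]
  | succ k ih =>
    intro σ hσ F hF C hC
    by_cases hne : Nonempty Ω
    swap
    · filter_upwards with x
      exact absurd ⟨x⟩ hne
    obtain ⟨x₀⟩ := hne
    have hC0 : 0 ≤ C := (abs_nonneg _).trans (hC x₀)
    have hB := H165R3.BPE.birkhoff (hσ 0) F hF C hC
    let Fn : ℕ → Ω → ℝ := fun n x => (n : ℝ)⁻¹ * ∑ i ∈ Finset.range n, F ((σ 0)^[i] x)
    have hFnm : ∀ n, Measurable (Fn n) := fun n =>
      (Finset.measurable_fun_sum _ fun i _ => hF.comp ((hσ 0).iterate i).measurable).const_mul _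
    have hFnb : ∀ n x, |Fn n x| ≤ C := by
      intro n x
      show |(n : ℝ)⁻¹ * ∑ i ∈ Finset.range n, F ((σ 0)^[i] x)| ≤ C
      rw [abs_mul, abs_inv, Nat.abs_cast]
      rcases Nat.eq_zero_or_pos n with h0 | h0
      · subst h0
        simpa using hC0
      · rw [inv_mul_le_iff₀ (by exact_mod_cast h0)]
        refine (Finset.abs_sum_le_sum_abs _ _).trans ?_
        refine (Finset.sum_le_sum fun i _ => hC _).trans ?_
        rw [Finset.sum_const, Finset.card_range, nsmul_eq_mul]
    -- the limit function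
    obtain ⟨E, hEm, hE⟩ : ∃ E : Ω → ℝ, Measurable E ∧
        ∀ᵐ x ∂P, Tendsto (fun n => Fn n x) atTop (𝓝 (E x)) := by
      have hEs : AEStronglyMeasurable (fun x => limUnder atTop fun n => Fn n x) P := by
        apply aestronglyMeasurable_of_tendsto_ae atTop
          (f := Fn) (fun n => (hFnm n).aestronglyMeasurable)
        filter_upwards [hB] with x hx
        exact tendsto_nhds_limUnder ⟨_, hx⟩
      obtain ⟨E, hEm, hEE⟩ := hEs
      refine ⟨E, hEm.measurable, ?_⟩
      filter_upwards [hB, hEE] with x hx hx'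
      rw [← hx']
      exact tendsto_nhds_limUnder ⟨_, hx⟩
    let Fs : Ω → ℝ := fun x => max (-C) (min C (E x))
    have hFsm : Measurable Fs := measurable_const.max (measurable_const.min hEm)
    have hFsb : ∀ x, |Fs x| ≤ C := by
      intro x
      rw [abs_le]
      exact ⟨le_max_left _ _, max_le (by linarith) (min_le_left _ _)⟩
    have hFs : ∀ᵐ x ∂P, Tendsto (fun n => Fn n x) atTop (𝓝 (Fs x)) := by
      filter_upwards [hE] with x hx
      have h1 : |E x| ≤ C := by
        have := hx.abs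
        exact le_of_tendsto this (Eventually.of_forall fun n => hFnb n x)
      have h2 : Fs x = E x := by
        rw [abs_le] at h1
        show max (-C) (min C (E x)) = E x
        rw [min_eq_right h1.2, max_eq_right h1.1]
      rw [h2]
      exact hx
    let G : ℕ → Ω → ℝ := fun K x => ⨆ n : ℕ, |Fn (K + n) x - Fs x|
    have hGb' : ∀ K x n, |Fn (K + n) x - Fs x| ≤ 2 * C := by
      intro K x n
      refine (abs_sub _ _).trans ?_
      linarith [hFnb (K + n) x, hFsb x]
    have hGbdd : ∀ K x, BddAbove (Set.range fun n : ℕ => |Fn (K + n) x - Fs x|) := by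
      intro K x
      refine ⟨2 * C, ?_⟩
      rintro _ ⟨n, rfl⟩
      exact hGb' K x n
    have hGm : ∀ K, Measurable (G K) := fun K => Measurable.iSup fun n =>
      ((hFnm _).sub hFsm).abs
    have hG0 : ∀ K x, 0 ≤ G K x := fun K x =>
      (abs_nonneg _).trans (le_ciSup (hGbdd K x) 0)
    have hGb : ∀ K x, |G K x| ≤ 2 * C := by
      intro K x
      rw [abs_of_nonneg (hG0 K x)]
      exact ciSup_le fun n => hGb' K x n
    have hGle : ∀ K n x, K ≤ n → |Fn n x - Fs x| ≤ G K x := by
      intro K n x hn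
      obtain ⟨d, rfl⟩ := Nat.exists_eq_add_of_le hn
      exact le_ciSup (hGbdd K x) d
    have hGlim : ∀ᵐ x ∂P, Tendsto (fun K => G K x) atTop (𝓝 0) := by
      filter_upwards [hFs] with x hx
      rw [Metric.tendsto_atTop] at hx ⊢
      intro ε hε
      obtain ⟨K₀, hK₀⟩ := hx (ε / 2) (by positivity)
      refine ⟨K₀, fun K hK => ?_⟩
      rw [Real.dist_eq, sub_zero, abs_of_nonneg (hG0 K x)]
      have : G K x ≤ ε / 2 := by
        apply ciSup_le
        intro n
        have := hK₀ (K + n) (by omega)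
        rw [Real.dist_eq] at this
        exact this.le
      linarith
    have hGint : Tendsto (fun K => ∫ x, G K x ∂P) atTop (𝓝 0) := by
      have := tendsto_integral_of_dominated_convergence (fun _ => 2 * C)
        (fun K => (hGm K).aestronglyMeasurable) (integrable_const _)
        (fun K => Eventually.of_forall fun x => by
          rw [Real.norm_eq_abs]
          exact hGb K x) hGlim
      rwa [integral_zero] at this
    -- use the induction hypothesis
    have hτ : ∀ j, MeasurePreserving (Fin.tail σ j) P P := fun j => hσ _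
    have h1 := ih (Fin.tail σ) hτ Fs hFsm C hFsb
    have h2 : ∀ᵐ x ∂P, ∀ K, ∃ L : ℝ, Tendsto (fun N => bx k N
        (fun m => G K (orb k (Fin.tail σ) m x))) atTop (𝓝 L) :=
      ae_all_iff.mpr fun K => ih (Fin.tail σ) hτ (G K) (hGm K) (2 * C) (hGb K)
    let γ : ℕ → Ω → ℝ := fun K x => limUnder atTop fun N => bx k N
        (fun m => G K (orb k (Fin.tail σ) m x))
    have hγ : ∀ᵐ x ∂P, ∀ K, Tendsto (fun N => bx k N
        (fun m => G K (orb k (Fin.tail σ) m x))) atTop (𝓝 (γ K x)) := by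
      filter_upwards [h2] with x hx K
      exact tendsto_nhds_limUnder (hx K)
    have hγint : ∀ K, ∫ x, γ K x ∂P ≤ ∫ x, G K x ∂P := by
      intro K
      refine int_lim_le hτ (hGm K) (C := 2 * C) (by positivity) (hGb K) (hG0 K) ?_
      filter_upwards [hγ] with x hx
      exact hx K
    have hγ0 : ∀ K, 0 ≤ᵐ[P] γ K := by
      intro K
      filter_upwards [hγ] with x hx
      exact ge_of_tendsto (hx K) (Eventually.of_forall fun N => bx_nonneg fun m => hG0 K _)
    have hγi : ∀ K, Integrable (γ K) P := by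
      intro K
      have hm : ∀ N, Measurable fun x => bx k N (fun m => G K (orb k (Fin.tail σ) m x)) := by
        intro N
        unfold bx
        exact (Finset.measurable_fun_sum _ fun m _ =>
          (hGm K).comp (orb_mp k _ hτ m).measurable).const_mul _
      have hms : AEStronglyMeasurable (γ K) P := aestronglyMeasurable_of_tendsto_ae atTop
        (fun N => (hm N).aestronglyMeasurable) (by
          filter_upwards [hγ] with x hx
          exact hx K)
      refine Integrable.of_bound hms (2 * C) ?_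
      filter_upwards [hγ] with x hx
      rw [Real.norm_eq_abs]
      exact le_of_tendsto (hx K).abs (Eventually.of_forall fun N =>
        bx_bound (by positivity) fun m => hGb K _)
    have hsmall : ∀ ε : ℝ, 0 < ε → ∀ᵐ x ∂P, ∃ K, γ K x < ε := by
      intro ε hε
      rw [ae_iff, ← nonpos_iff_eq_zero]
      apply ENNReal.le_of_forall_pos_le_add
      intro δ hδ _
      rw [zero_add]
      have hδ' : (0 : ℝ) < δ := by exact_mod_cast hδ
      obtain ⟨K, hK⟩ := ((tendsto_order.mp hGint).2 (ε * δ) (by positivity)).exists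
      have hmk := mul_meas_ge_le_integral_of_nonneg (hγ0 K) (hγi K) ε
      have h3 : P.real {x | ε ≤ γ K x} ≤ δ := by
        have h4 : ε * P.real {x | ε ≤ γ K x} ≤ ε * δ :=
          hmk.trans ((hγint K).trans hK.le)
        exact le_of_mul_le_mul_left h4 hε
      refine (measure_mono (t := {x | ε ≤ γ K x}) fun x hx => ?_).trans ?_
      · by_contra hcon
        exact hx ⟨K, not_le.mp hcon⟩
      · have h20 : P {x | ε ≤ γ K x} = ENNReal.ofReal (P.real {x | ε ≤ γ K x}) := by
          rw [measureReal_def, ENNReal.ofReal_toReal (measure_ne_top _ _)]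
        rw [h20]
        calc ENNReal.ofReal (P.real {x | ε ≤ γ K x}) ≤ ENNReal.ofReal (δ : ℝ) :=
              ENNReal.ofReal_le_ofReal h3
          _ = δ := ENNReal.ofReal_coe_nnreal
    have hall : ∀ᵐ x ∂P, ∀ i : ℕ, ∃ K, γ K x < 1 / ((i : ℝ) + 1) :=
      ae_all_iff.mpr fun i => hsmall _ (by positivity)
    filter_upwards [h1, hγ, hall] with x hx1 hx2 hx3
    obtain ⟨L, hL⟩ := hx1
    refine ⟨L, ?_⟩
    rw [Metric.tendsto_atTop]
    intro ε hε
    obtain ⟨i, hi⟩ := exists_nat_one_div_lt (half_pos hε)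
    obtain ⟨K, hK⟩ := hx3 i
    have e1 := (tendsto_order.mp (hx2 K)).2 (ε / 2) (hK.trans hi)
    obtain ⟨N₁, hN₁⟩ := eventually_atTop.mp e1
    obtain ⟨N₂, hN₂⟩ := Metric.tendsto_atTop.mp hL (ε / 2) (by positivity)
    refine ⟨Fin.cons K (N₁ ⊔ N₂), fun N hN => ?_⟩
    have hN0 : K ≤ N 0 := hN 0
    have hNt : N₁ ⊔ N₂ ≤ Fin.tail N := fun j => hN j.succ
    have f1 := hN₁ (Fin.tail N) (le_sup_left.trans hNt)
    have f2 := hN₂ (Fin.tail N) (le_sup_right.trans hNt)
    have f3 : bx (k + 1) N (fun m => F (orb (k + 1) σ m x)) =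
        bx k (Fin.tail N) (fun m => Fn (N 0) (orb k (Fin.tail σ) m x)) := by
      rw [bx_succ]
      congr 1
    rw [f3, Real.dist_eq]
    rw [Real.dist_eq] at f2
    have f4 : |bx k (Fin.tail N) (fun m => Fn (N 0) (orb k (Fin.tail σ) m x)) -
        bx k (Fin.tail N) (fun m => Fs (orb k (Fin.tail σ) m x))| < ε / 2 := by
      rw [← bx_sub]
      refine (bx_abs.trans (bx_mono fun m => ?_)).trans_lt f1
      exact hGle K (N 0) _ hN0
    have f5 : bx k (Fin.tail N) (fun m => Fn (N 0) (orb k (Fin.tail σ) m x)) - L =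
        (bx k (Fin.tail N) (fun m => Fn (N 0) (orb k (Fin.tail σ) m x)) -
        bx k (Fin.tail N) (fun m => Fs (orb k (Fin.tail σ) m x))) +
        (bx k (Fin.tail N) (fun m => Fs (orb k (Fin.tail σ) m x)) - L) := by ring
    rw [f5]
    refine (abs_add_le _ _).trans_lt ?_
    linarith

end Pool.Agent.W761.Box
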