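import Pool.Agent.W761.Box.Core
import Pool.Agent.W761.Gauss.Main

/-!
# Multiple box averages for Gaussian actions
-/

set_option autoImplicit false
set_option linter.unusedSectionVars false

open Filter Topology MeasureTheory ProbabilityTheory
open scoped NNReal ENNReal

noncomputable section

namespace Pool.Agent.W761.Box

open Pool.Agent.W761.Gauss (GaussSpace ex ex_add ex_sum norm_ex meas_ex q q_comp q_smul Adm
  sig EP dense_EP meas_exh sat le_sat sig_mono IsGaussianAction IsFactor adm_prod inter_prod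
  mp_prod BM_of_memLp)

variable {X : Type*} [MeasurableSpace X] {μ : Measure X} {H : Submodule ℝ (X → ℝ)}
variable {k : ℕ} {J : Type*} [Fintype J] [DecidableEq J]

theorem orb_add {A : Type*} [AddCommGroup A] {Φ : A → Equiv.Perm X}
    (hΦ : ∀ a b, Φ (a + b) = Φ a * Φ b) (hΦ0 : Φ 0 = 1) :
    ∀ (k : ℕ) (a : Fin k → A) (m : Fin k → ℕ) (x : X),
      orb k (fun l => (Φ (a l) : X → X)) m x = Φ (∑ l, m l • a l) x
  | 0, a, m, x => by simp [orb, hΦ0]
  | k + 1, a, m, x => by
    have h1 := orb_add hΦ hΦ0 k (Fin.tail a) (Fin.tail m) x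
    have h2 : ∀ (n : ℕ) (b : A) (y : X), (Φ b : X → X)^[n] y = Φ (n • b) y := by
      intro n
      induction n with
      | zero =>
        intro b y
        simp [hΦ0]
      | succ n ih =>
        intro b y
        rw [Function.iterate_succ_apply, ih, succ_nsmul, hΦ, Equiv.Perm.mul_apply]
    show (Φ (a 0) : X → X)^[m 0] (orb k (fun l => (Φ (Fin.tail a l) : X → X)) (Fin.tail m) x) = _
    rw [h1, h2, Fin.sum_univ_succ, hΦ, Equiv.Perm.mul_apply]
    rfl

theorem good1 [IsProbabilityMeasure μ] {A : Type*} [AddCommGroup A] {Φ : A → Equiv.Perm X}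
    (hΦ : ∀ a b, Φ (a + b) = Φ a * Φ b) (hΦ0 : Φ 0 = 1)
    (hmp : ∀ a, MeasurePreserving (Φ a) μ μ) (c : A) (a : Fin k → A) :
    Good1 μ (fun m : Fin k → ℕ => (Φ (c + ∑ l, m l • a l) : X → X)) := by
  intro G hG hb
  obtain ⟨C, hC⟩ := hb
  have h1 := dz k (fun l => (Φ (a l) : X → X)) (fun l => hmp _) (fun x => G (Φ c x))
    (hG.comp (hmp c).measurable) C fun x => hC _
  filter_upwards [h1] with x hx
  obtain ⟨L, hL⟩ := hx
  refine ⟨L, hL.congr fun N => ?_⟩
  congr 1
  funext m
  rw [orb_add hΦ hΦ0, ← Equiv.Perm.mul_apply, ← hΦ]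

/-- Convergence for bounded measurable functions. -/
theorem Cv_BM [IsProbabilityMeasure μ] (hH : GaussSpace μ H)
    (hgen : ∀ A, MeasurableSet A → ∃ B, MeasurableSet[sig H] B ∧ A =ᵐ[μ] B)
    {A : Type*} [AddCommGroup A] {Φ : A → Equiv.Perm X}
    (hΦ : ∀ a b, Φ (a + b) = Φ a * Φ b) (hΦ0 : Φ 0 = 1) (hadm : ∀ a, Adm μ H (Φ a))
    (c : J → A) (a : J → Fin k → A) {F : J → X → ℂ} (hF : ∀ j, BM (F j)) :
    Cv μ (fun j (m : Fin k → ℕ) => (Φ (c j + ∑ l, m l • a j l) : X → X)) F := by
  set g : J → (Fin k → ℕ) → X → X := fun j m => (Φ (c j + ∑ l, m l • a j l) : X → X) with hg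
  have hE : ∀ l : Fin k, ∃ b : J → A, ∀ j (m : Fin k → ℕ),
      c j + ∑ i, (m + Pi.single l 1 : Fin k → ℕ) i • a j i = c j + ∑ i, m i • a j i + b j := by
    intro l
    refine ⟨fun j => a j l, fun j m => ?_⟩
    rw [add_assoc]
    congr 1
    simp only [Pi.add_apply, add_smul, Finset.sum_add_distrib]
    congr 1
    simp [Pi.single_apply]
  have key : ∀ (B : Finset J) (F : J → X → ℂ), (∀ j ∈ B, BM (F j)) →
      (∀ j ∉ B, ∃ h ∈ H, F j = fun x => ex (h x)) → Cv μ g F := by
    intro B
    induction B using Finset.induction_on with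
    | empty =>
      intro F _ h2
      choose h hh hFh using fun j => h2 j (Finset.notMem_empty j)
      have h3 := conv_exp hH hΦ hadm (E := fun j (m : Fin k → ℕ) => c j + ∑ l, m l • a j l) hE hh
      filter_upwards [h3] with x hx
      obtain ⟨L, hL⟩ := hx
      refine ⟨L, hL.congr fun N => ?_⟩
      congr 1
      funext m
      rw [ex_sum]
      apply Finset.prod_congr rfl
      intro j _
      rw [hFh j]
    | insert j B hj ih =>
      intro F h1 h2
      have hBMall : ∀ l, BM (F l) := by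
        intro l
        by_cases hl : l ∈ insert j B
        · exact h1 l hl
        · obtain ⟨h, hh, e⟩ := h2 l hl
          rw [e]
          exact ⟨meas_exh hH hh, 1, fun x => (norm_ex _).le⟩
      have hbmj : BM (F j) := hBMall j
      have hmain : Cv μ g (Function.update F j (F j)) := by
        refine Cv_closed (fun l m => (hadm _).mp)
          (fun l => good1 hΦ hΦ0 (fun b => (hadm b).mp) _ _) hBMall hbmj ?_
        intro ε hε
        obtain ⟨hfm, C, hC⟩ := hbmj
        have hmem : MemLp (F j) 2 μ := MemLp.of_bound hfm.aestronglyMeasurable C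
          (Eventually.of_forall hC)
        obtain ⟨f', hf', hff'⟩ := dense_EP hH hgen hmem hε
        have hg' : BM f' ∧ Cv μ g (Function.update F j f') := by
          refine Submodule.span_induction
            (p := fun (f' : X → ℂ) _ => BM f' ∧ Cv μ g (Function.update F j f'))
            ?_ ?_ ?_ ?_ hf'
          · rintro _ ⟨h, hh, rfl⟩
            refine ⟨⟨meas_exh hH hh, 1, fun x => (norm_ex _).le⟩, ?_⟩
            apply ih
            · intro l hl
              have hlj : l ≠ j := fun e => hj (e ▸ hl)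
              rw [Function.update_of_ne hlj]
              exact h1 l (Finset.mem_insert_of_mem hl)
            · intro l hl
              by_cases hlj : l = j
              · subst hlj
                exact ⟨h, hh, by rw [Function.update_self]⟩
              · rw [Function.update_of_ne hlj]
                apply h2
                intro hmem'
                rcases Finset.mem_insert.mp hmem' with h5 | h5
                · exact hlj h5
                · exact hl h5
          · exact ⟨⟨measurable_const, 0, fun x => by simp⟩, Cv_zero⟩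
          · rintro g₁ g₂ _ _ ⟨⟨m₁, C₁, b₁⟩, c₁⟩ ⟨⟨m₂, C₂, b₂⟩, c₂⟩
            exact ⟨⟨m₁.add m₂, C₁ + C₂, fun x => (norm_add_le _ _).trans
              (add_le_add (b₁ x) (b₂ x))⟩, Cv_add c₁ c₂⟩
          · rintro c g₁ _ ⟨⟨m₁, C₁, b₁⟩, c₁⟩
            refine ⟨⟨m₁.const_smul c, ‖c‖ * C₁, fun x => ?_⟩, Cv_smul c c₁⟩
            rw [Pi.smul_apply, norm_smul]
            exact mul_le_mul_of_nonneg_left (b₁ x) (norm_nonneg _)
        exact ⟨f', hg'.1, hff', hg'.2⟩
      rwa [Function.update_eq_self] at hmain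
  exact key Finset.univ F (fun j _ => hF j) fun j hj => absurd (Finset.mem_univ j) hj

theorem prod_zpow_add {G : Type*} [Group G] {d : ℕ} (T : Fin d → G)
    (hc : ∀ i j, Commute (T i) (T j)) (a b : Fin d → ℤ) :
    (List.ofFn fun i => T i ^ ((a + b) i)).prod =
      (List.ofFn fun i => T i ^ a i).prod * (List.ofFn fun i => T i ^ b i).prod := by
  induction d with
  | zero => simp
  | succ d ih =>
    simp only [List.ofFn_succ, List.prod_cons]
    have h1 := ih (fun i => T i.succ) (fun i j => hc _ _) (fun i => a i.succ) fun i => b i.succ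
    have h2 : Commute (List.ofFn fun i : Fin d => T i.succ ^ a i.succ).prod (T 0 ^ b 0) := by
      apply Commute.list_prod_left
      intro y hy
      obtain ⟨i, rfl⟩ := (List.mem_ofFn' _ _).mp hy
      exact ((hc i.succ 0).zpow_left _).zpow_right _
    simp only [Pi.add_apply] at h1 ⊢
    rw [h1, zpow_add]
    calc T 0 ^ a 0 * T 0 ^ b 0 * ((List.ofFn fun i : Fin d => T i.succ ^ a i.succ).prod *
          (List.ofFn fun i : Fin d => T i.succ ^ b i.succ).prod) =
        T 0 ^ a 0 * (T 0 ^ b 0 * (List.ofFn fun i : Fin d => T i.succ ^ a i.succ).prod) *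
          (List.ofFn fun i : Fin d => T i.succ ^ b i.succ).prod := by
          simp only [mul_assoc]
      _ = T 0 ^ a 0 * ((List.ofFn fun i : Fin d => T i.succ ^ a i.succ).prod * T 0 ^ b 0) *
          (List.ofFn fun i : Fin d => T i.succ ^ b i.succ).prod := by
          rw [h2.eq]
      _ = _ := by simp only [mul_assoc]

/-- The value of a polynomial of degree at most one. -/
theorem eval_affine {k : ℕ} (P : MvPolynomial (Fin k) ℤ) (h : P.totalDegree ≤ 1)
    (m : Fin k → ℤ) :
    MvPolynomial.eval m P = MvPolynomial.coeff 0 P +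
      ∑ l, m l * MvPolynomial.coeff (Finsupp.single l 1) P := by
  classical
  set S : Finset (Fin k →₀ ℕ) := insert 0 (Finset.univ.image fun l : Fin k => Finsupp.single l 1)
    with hS
  have hsub : P.support ⊆ S := by
    intro d hd
    have h1 : (d.sum fun _ e => e) ≤ 1 := (MvPolynomial.le_totalDegree hd).trans h
    rcases eq_or_ne d 0 with h0 | h0
    · rw [h0]
      exact Finset.mem_insert_self _ _
    · obtain ⟨l, hl⟩ := Finsupp.ne_iff.mp h0
      have hl' : 1 ≤ d l := Nat.one_le_iff_ne_zero.mpr hl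
      have h2 : d = Finsupp.single l 1 := by
        have h3 : (d.sum fun _ e => e) = ∑ i, d i := by
          rw [Finsupp.sum_fintype]
          intro i
          rfl
        rw [h3, ← Finset.add_sum_erase _ _ (Finset.mem_univ l)] at h1
        ext i
        rcases eq_or_ne i l with hi | hi
        · subst hi
          rw [Finsupp.single_eq_same]
          omega
        · rw [Finsupp.single_eq_of_ne hi]
          have h4 : d i ≤ ∑ j ∈ Finset.univ.erase l, d j :=
            Finset.single_le_sum (fun _ _ => Nat.zero_le _)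
              (Finset.mem_erase.mpr ⟨hi, Finset.mem_univ i⟩)
          omega
      rw [h2]
      exact Finset.mem_insert_of_mem (Finset.mem_image_of_mem _ (Finset.mem_univ l))
  rw [MvPolynomial.eval_eq']
  rw [Finset.sum_subset hsub fun d _ hd => by
    rw [MvPolynomial.notMem_support_iff.mp hd, zero_mul]]
  rw [hS, Finset.sum_insert, Finset.sum_image]
  · congr 1
    · simp
    · apply Finset.sum_congr rfl
      intro l _
      rw [mul_comm]
      congr 1
      rw [Finset.prod_eq_single l]
      · simp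
      · intro i _ hi
        rw [Finsupp.single_eq_of_ne hi, pow_zero]
      · intro hl
        exact absurd (Finset.mem_univ l) hl
  · intro l _ l' _ hll
    exact (Finsupp.single_left_injective one_ne_zero) hll
  · intro h0
    rw [Finset.mem_image] at h0
    obtain ⟨l, _, hl⟩ := h0
    have := DFunLike.congr_fun hl l
    simp at this

/-- Convergence for bounded measurable functions on a Gaussian action. -/
theorem gaussian_conv {X : Type} [MeasurableSpace X] {μ : Measure X} [IsProbabilityMeasure μ]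
    {d n : ℕ} {T : Fin d → Equiv.Perm X}
    (hT : IsGaussianAction μ T) (P : Fin d → Fin n → MvPolynomial (Fin k) ℤ)
    (hP : ∀ i j, (P i j).totalDegree ≤ 1)
    {f : Fin n → X → ℂ} (hf : ∀ j, BM (f j)) :
    ∀ᵐ x ∂μ, ∃ L : ℂ, Tendsto (fun N => bxc k N fun m => ∏ j, f j
      ((List.ofFn fun i : Fin d => T i ^
        (MvPolynomial.eval (fun l => ((m l : ℕ) : ℤ)) (P i j))).prod x)) atTop (𝓝 L) := by
  obtain ⟨H, h1, h2, h3⟩ := hT.gauss
  have hH : GaussSpace μ H := ⟨fun h hh => (h1 h hh).1, fun h hh => (h1 h hh).2⟩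
  have hadm : ∀ i, Adm μ (sat μ H) (T i) := by
    intro i
    have hinv : MeasurePreserving ((T i)⁻¹ : Equiv.Perm X) μ μ := by
      let e : X ≃ᵐ X := ⟨T i, (hT.mp i).measurable, hT.meas_symm i⟩
      exact (hT.mp i).symm e
    refine ⟨hT.mp i, hinv, ?_, ?_⟩
    · rintro g ⟨hg, h, hh, e⟩
      obtain ⟨h', hh', e'⟩ := (h2 i h hh).1
      refine ⟨hg.comp (hT.mp i).measurable, h', hh', ?_⟩
      exact ((hT.mp i).quasiMeasurePreserving.ae_eq_comp e).trans e'
    · rintro g ⟨hg, h, hh, e⟩
      obtain ⟨h', hh', e'⟩ := (h2 i h hh).2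
      refine ⟨hg.comp hinv.measurable, h', hh', ?_⟩
      exact (hinv.quasiMeasurePreserving.ae_eq_comp e).trans e'
  have hgen : ∀ A, MeasurableSet A → ∃ B, MeasurableSet[sig (sat μ H)] B ∧ A =ᵐ[μ] B := by
    intro A hA
    obtain ⟨B, hB, e⟩ := h3 A hA
    exact ⟨B, sig_mono (le_sat hH) B hB, e⟩
  let Φ : (Fin d → ℤ) → Equiv.Perm X := fun a => (List.ofFn fun i => T i ^ a i).prod
  have hΦ : ∀ a b, Φ (a + b) = Φ a * Φ b := fun a b => prod_zpow_add T hT.comm a b
  have hΦ0 : Φ 0 = 1 := by
    show (List.ofFn fun i => T i ^ ((0 : Fin d → ℤ) i)).prod = 1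
    simp
  have hΦadm : ∀ a, Adm μ (sat μ H) (Φ a) := fun a => adm_prod hadm a
  have hmain := Cv_BM hH.sat hgen hΦ hΦ0 hΦadm
    (fun (j : Fin n) (i : Fin d) => MvPolynomial.coeff 0 (P i j))
    (fun (j : Fin n) (l : Fin k) (i : Fin d) => MvPolynomial.coeff (Finsupp.single l 1) (P i j)) hf
  filter_upwards [hmain] with x hx
  obtain ⟨L, hL⟩ := hx
  refine ⟨L, hL.congr fun N => ?_⟩
  congr 1
  funext m
  apply Finset.prod_congr rfl
  intro j _
  show f j ((List.ofFn fun i => T i ^ (((fun i => MvPolynomial.coeff 0 (P i j)) +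
    ∑ l, m l • fun i => MvPolynomial.coeff (Finsupp.single l 1) (P i j)) i)).prod x) = _
  have h5 : ∀ i, (((fun i => MvPolynomial.coeff 0 (P i j)) +
    ∑ l, m l • fun i => MvPolynomial.coeff (Finsupp.single l 1) (P i j)) i) =
      MvPolynomial.eval (fun l => ((m l : ℕ) : ℤ)) (P i j) := by
    intro i
    rw [eval_affine _ (hP i j), Pi.add_apply, Finset.sum_apply]
    congr 1
  simp only [h5]

/-- Convergence for the factors of Gaussian actions. -/
theorem gaussian_factor_conv {X Y : Type} [MeasurableSpace X] [MeasurableSpace Y]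
    {μ : Measure X} [IsProbabilityMeasure μ] {ν : Measure Y}
    {d n : ℕ} {T : Fin d → Equiv.Perm X}
    (hT : IsGaussianAction μ T) {R : Fin d → Equiv.Perm Y}
    (hRm : ∀ i, Measurable (R i).symm) (hR : ∀ i, MeasurePreserving (R i) ν ν)
    (hfac : IsFactor μ T ν R) (P : Fin d → Fin n → MvPolynomial (Fin k) ℤ)
    (hP : ∀ i j, (P i j).totalDegree ≤ 1)
    {f : Fin n → Y → ℂ} (hf : ∀ j, MemLp (f j) ∞ ν) :
    ∀ᵐ y ∂ν, ∃ L : ℂ, Tendsto (fun N => bxc k N fun m => ∏ j, f j
      ((List.ofFn fun i : Fin d => R i ^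
        (MvPolynomial.eval (fun l => ((m l : ℕ) : ℤ)) (P i j))).prod y)) atTop (𝓝 L) := by
  obtain ⟨π, hπ, hπT⟩ := hfac
  have hT' : ∀ i, MeasurePreserving ((T i)⁻¹ : Equiv.Perm X) μ μ := by
    intro i
    let e : X ≃ᵐ X := ⟨T i, (hT.mp i).measurable, hT.meas_symm i⟩
    exact (hT.mp i).symm e
  have hR' : ∀ i, MeasurePreserving ((R i)⁻¹ : Equiv.Perm Y) ν ν := by
    intro i
    let e : Y ≃ᵐ Y := ⟨R i, (hR i).measurable, hRm i⟩
    exact (hR i).symm e
  choose g hg hfg using fun j => BM_of_memLp (hf j)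
  have h1 := gaussian_conv hT P hP (f := fun j => g j ∘ π) fun j => by
    obtain ⟨gm, C, hC⟩ := hg j
    exact ⟨gm.comp hπ.measurable, C, fun x => hC _⟩
  have h2 : ∀ᵐ x ∂μ, ∀ (m : Fin k → ℕ) (j : Fin n),
      π ((List.ofFn fun i : Fin d => T i ^
        (MvPolynomial.eval (fun l => ((m l : ℕ) : ℤ)) (P i j))).prod x) =
      (List.ofFn fun i : Fin d => R i ^
        (MvPolynomial.eval (fun l => ((m l : ℕ) : ℤ)) (P i j))).prod (π x) := by
    rw [ae_all_iff]
    intro m
    rw [ae_all_iff]
    intro j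
    exact inter_prod hT.mp hT' hπT _
  have hgR : ∀ (m : Fin k → ℕ), Measurable fun y => ∏ j, g j
      ((List.ofFn fun i : Fin d => R i ^
        (MvPolynomial.eval (fun l => ((m l : ℕ) : ℤ)) (P i j))).prod y) := by
    intro m
    apply Finset.measurable_fun_prod
    intro j _
    exact (hg j).1.comp (mp_prod hR hR' _).measurable
  have hms : MeasurableSet {y | ∃ L : ℂ, Tendsto (fun N => bxc k N fun m => ∏ j, g j
      ((List.ofFn fun i : Fin d => R i ^
        (MvPolynomial.eval (fun l => ((m l : ℕ) : ℤ)) (P i j))).prod y)) atTop (𝓝 L)} := by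
    apply measurableSet_exists_tendsto
    intro N
    unfold bxc
    exact (Finset.measurable_fun_sum _ fun n _ => hgR n).const_mul _
  have h3 : ∀ᵐ x ∂μ, π x ∈ {y | ∃ L : ℂ, Tendsto (fun N => bxc k N fun m => ∏ j, g j
      ((List.ofFn fun i : Fin d => R i ^
        (MvPolynomial.eval (fun l => ((m l : ℕ) : ℤ)) (P i j))).prod y)) atTop (𝓝 L)} := by
    filter_upwards [h1, h2] with x hx1 hx2
    obtain ⟨L, hL⟩ := hx1
    refine ⟨L, hL.congr fun N => ?_⟩
    congr 1
    funext m
    apply Finset.prod_congr rfl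
    intro j _
    rw [Function.comp_apply, hx2]
  have h4 : ∀ᵐ y ∂ν, y ∈ {y | ∃ L : ℂ, Tendsto (fun N => bxc k N fun m => ∏ j, g j
      ((List.ofFn fun i : Fin d => R i ^
        (MvPolynomial.eval (fun l => ((m l : ℕ) : ℤ)) (P i j))).prod y)) atTop (𝓝 L)} := by
    rw [← hπ.map_eq]
    exact (ae_map_iff hπ.measurable.aemeasurable hms).mpr h3
  have h5 : ∀ᵐ y ∂ν, ∀ (m : Fin k → ℕ) (j : Fin n),
      f j ((List.ofFn fun i : Fin d => R i ^
        (MvPolynomial.eval (fun l => ((m l : ℕ) : ℤ)) (P i j))).prod y) =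
      g j ((List.ofFn fun i : Fin d => R i ^
        (MvPolynomial.eval (fun l => ((m l : ℕ) : ℤ)) (P i j))).prod y) := by
    rw [ae_all_iff]
    intro m
    rw [ae_all_iff]
    intro j
    exact (mp_prod hR hR' _).quasiMeasurePreserving.ae (hfg j)
  filter_upwards [h4, h5] with y hy4 hy5
  obtain ⟨L, hL⟩ := hy4
  refine ⟨L, hL.congr fun N => ?_⟩
  congr 1
  funext m
  apply Finset.prod_congr rfl
  intro j _
  rw [hy5]

end Pool.Agent.W761.Box
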